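import Pool.Agent.Helper11.R3.LYF

/-! R2: the entering elements of the boundary (MP_7ef5a1_co). -/

set_option autoImplicit false
open Classical

namespace Pool.Agent.Helper58.R3

theorem r2_mem {m : ℕ} {H : SimpleGraph (Fin m)} {Z : Finset (Fin m)} {x y : Fin m}
    (hx : x ∉ Z) (hy : y ∈ Z) (h : H.Adj y x) : x ∈ nb H Z := by
  unfold nb
  rw [Finset.mem_filter]
  exact ⟨Finset.mem_univ _, hx, y, hy, h⟩

theorem r2_main {m : ℕ} {H : SimpleGraph (Fin m)} {v0 : Fin m} {Z : Finset (Fin m)}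
    {ψ : Fin m → Fin m} {k : ℕ} (s : SLC H v0 Z ψ k) : ∀ t : ℕ, ∀ q ∈ nb H Z, Lay Z ψ t q →
    t % (k + 1) ≠ 0 →
    H.Adj (ψ^[k] v0) (ψ^[k - t % (k + 1)] v0) ∧ ψ^[k - t % (k + 1)] v0 ∈ nb H Z ∧
    ψ^[t % (k + 1) - 1] v0 ∈ nb H Z := by
  intro t
  induction t using Nat.strong_induction_on with
  | _ t ih =>
    intro q hq hl ht
    unfold nb at hq
    rw [Finset.mem_filter] at hq
    obtain ⟨_, hqZ, z, hz, hzq⟩ := hq
    have h0 : H.Adj v0 (ψ q) := by
      have h := s.we.hom z q hzq fun h => hqZ h.2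
      rwa [s.we.zv z hz] at h
    have ht1 : 1 ≤ t := by
      rcases Nat.eq_zero_or_pos t with h | h
      · rw [h, Nat.zero_mod] at ht
        exact absurd rfl ht
      · exact h
    by_cases hk : k + 1 ≤ t
    · have hne : t - (k + 1) ≠ 0 := by
        intro h
        have h' : t = k + 1 := by omega
        rw [h', Nat.mod_self] at ht
        exact ht rfl
      have h1 : H.Adj (ψ^[k] v0) (ψ^[k] (ψ q)) :=
        lyf_adj s.we h0 k fun j hj => Or.inl (s.kl.2 j hj)
      rw [← Function.iterate_succ_apply] at h1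
      have h2 : Lay Z ψ (t - (k + 1)) (ψ^[k + 1] q) := by
        refine lyf_shift ?_
        have : k + 1 + (t - (k + 1)) = t := by omega
        rw [this]
        exact hl
      have h3 : ψ^[k + 1] q ∉ Z := h2.2 0 (by omega)
      have h4 : (t - (k + 1)) % (k + 1) = t % (k + 1) := (Nat.mod_eq_sub_mod hk).symm
      have h5 := ih (t - (k + 1)) (by omega) (ψ^[k + 1] q) (r2_mem h3 s.kl.1 h1) h2
        (by rw [h4]; exact ht)
      rw [h4] at h5
      exact h5
    · have hm : t % (k + 1) = t := Nat.mod_eq_of_lt (by omega)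
      rw [hm]
      have h1 : H.Adj (ψ^[t - 1] v0) (ψ^[t - 1] (ψ q)) :=
        lyf_adj s.we h0 (t - 1) fun j hj => Or.inl (s.kl.2 j (by omega))
      rw [← Function.iterate_succ_apply, Nat.succ_eq_add_one, Nat.sub_add_cancel ht1] at h1
      have h2 : ψ^[t - 1] v0 ∉ Z := s.kl.2 (t - 1) (by omega)
      have h3 : H.Adj (ψ^[t] v0) v0 := by
        have h := s.we.hom _ _ h1 fun h => h2 h.1
        have e : ψ^[t - 1 + 1] v0 = ψ (ψ^[t - 1] v0) := Function.iterate_succ_apply' ψ (t - 1) v0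
        rw [Nat.sub_add_cancel ht1] at e
        rw [s.we.zv _ hl.1, ← e] at h
        exact h
      have h4 : H.Adj (ψ^[k - t] v0) (ψ^[k - t] (ψ^[t] v0)) :=
        lyf_adj s.we h3.symm (k - t) fun j hj => Or.inl (s.kl.2 j (by omega))
      rw [← Function.iterate_add_apply, Nat.sub_add_cancel (by omega : t ≤ k)] at h4
      have h5 : ψ^[k - t] v0 ∉ Z := s.kl.2 (k - t) (by omega)
      exact ⟨h4.symm, r2_mem h5 s.kl.1 h4.symm, r2_mem h2 hl.1 h1.symm⟩

theorem st_R2 : ST_R2 := by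
  intro m H v0 Z ψ k s q hq t hl ht
  exact r2_main s t q hq hl ht

end Pool.Agent.Helper58.R3
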